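import Mathlib
import Pool.Agent.MP_34a893_an.C.All

open MeasureTheory Set MP34a893

namespace Pool.Agent.Results.MP_34a893_an.CompletelyMonotoneKernel

/-- Singular limit for the `p`-norm nonlocal conservation law, `0 < p < 1`, every admissible kernel
with `γ^p` completely monotone, every velocity with `V' < 0` on `(0,M)` (no condition on the shape
of the flux), bounded measurable data that may vanish. -/
theorem result (p T M : ℝ) (V γ q0 : ℝ → ℝ) (q : ℝ → ℝ → ℝ → ℝ) (qs : ℝ → ℝ → ℝ)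
    (hp0 : 0 < p) (hp1 : p < 1) (hT : 0 < T) (hM : 0 < M)
    (hV : ContDiff ℝ 1 V) (hV' : ∀ x, deriv V x ≤ 0) (hVs : ∀ x ∈ Ioo 0 M, deriv V x < 0)
    (hγ : IsKernel p γ) (hcm : CompMono fun s => γ s ^ p)
    (hm : Measurable q0) (hq0 : ∀ x, q0 x ∈ Icc 0 M)
    (hq : ∀ η, 0 < η → IsWeakSol p η T V γ q0 (q η)) (hqs : IsEntropySol T V q0 qs) :
    ∀ a c e : ℝ, 0 < e → ∃ η0, 0 < η0 ∧ ∀ η, 0 < η → η < η0 → ∀ t ∈ Icc 0 T,
      ∫ x in Icc a c, |q η t x - qs t x| ≤ e :=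
  C.main_all p T M V γ q0 q qs hp0 hp1 hT hM hV hV' hVs hγ hcm hm hq0 hq hqs

end Pool.Agent.Results.MP_34a893_an.CompletelyMonotoneKernel
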