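import Mathlib
import Pool.Agent.MP_34a893_an.FL.Main

open MeasureTheory Set MP34a893

namespace Pool.Agent.Results.MP_34a893_an.FluxLowerBound

/-- One half of the singular limit for the `p`-norm nonlocal conservation law, `0 < p < 1`, for
every non-increasing velocity, every admissible monotone kernel and all bounded data, which may
vanish: the cumulative flux of the nonlocal solution is at least the cumulative flux of the
entropy solution, up to an error that tends to zero with `η` uniformly in the data. -/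
theorem result (p T M : ℝ) (V γ : ℝ → ℝ) (hp0 : 0 < p) (hp1 : p < 1) (hT : 0 < T) (hM : 0 < M)
    (hV : ContDiff ℝ 1 V) (hV' : ∀ x, deriv V x ≤ 0) (hγ : IsKernel p γ) :
    ∀ e : ℝ, 0 < e → ∃ η0, 0 < η0 ∧ ∀ η, 0 < η → η < η0 →
      ∀ (q0 : ℝ → ℝ) (q qs : ℝ → ℝ → ℝ), Measurable q0 → (∀ x, q0 x ∈ Icc 0 M) →
        IsWeakSol p η T V γ q0 q → IsEntropySol T V q0 qs →
        ∀ t ∈ Icc 0 T, ∀ a c : ℝ, a ≤ c →
          ∫ s in (0 : ℝ)..t, ∫ x in a..c, V (qs s x) * qs s x ≤
            (∫ s in (0 : ℝ)..t, ∫ x in a..c, V (Wnl p η γ q s x) * q s x) + e * (c - a) :=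
  FL.main p T M V γ hp0 hp1 hT hM hV hV' hγ

end Pool.Agent.Results.MP_34a893_an.FluxLowerBound
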