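import Mathlib
import Pool.Agent.MP_34a893_an.MI.All

open MeasureTheory Set Filter Topology MP34a893

namespace Pool.Agent.Results.MP_34a893_an.MassFromInfinity

/-- For some `p ∈ (0,1)`, some admissible `V`, `γ` and the datum `q0 = 0` there is, for every
`T > 0`, a family of locally bounded weak solutions in `C([0,T]; L¹_loc)` of the `p`-norm nonlocal
conservation law whose `L¹([0,1])` distance at time `T` from the entropy solution of the local
problem tends to infinity as `η → 0`. -/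
theorem result : ∃ (p : ℝ) (V γ : ℝ → ℝ), 0 < p ∧ p < 1 ∧
    ContDiff ℝ 2 V ∧ (∀ w, deriv V w ≤ 0) ∧
    ContDiff ℝ 2 γ ∧ (∀ s, 0 ≤ γ s) ∧ Antitone γ ∧ IntegrableOn γ (Ioi 0) ∧
    IntegrableOn (deriv γ) (Ioi 0) ∧ IntegrableOn (deriv (deriv γ)) (Ioi 0) ∧
    ∫ s in Ioi (0 : ℝ), γ s ^ p = 1 ∧
    ∀ T : ℝ, 0 < T → IsEntropySol T V (fun _ => 0) (fun _ _ => 0) ∧
      ∃ q : ℝ → ℝ → ℝ → ℝ, (∀ η, 0 < η → IsLocSol p η T V γ (fun _ => 0) (q η)) ∧
        ∀ qs, IsEntropySol T V (fun _ => 0) qs →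
          Tendsto (fun η => ∫ x in Icc (0 : ℝ) 1, |q η T x - qs T x|) (𝓝[>] 0) atTop :=
  MI34.main

end Pool.Agent.Results.MP_34a893_an.MassFromInfinity
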